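import Pool.Agent.Helper99.ML.G

/-!
# Primes `⌊(α n) ^ n⌋ + k` for all large `n` in a sparse set (MP_a70bdc_nt)

The only `n > 1` for which `n ^ n + 1` can be prime are `n = 2 ^ (2 ^ j)`. For almost every `α` only finitely many of the
numbers `⌊(α n) ^ n⌋ + k`, `n = 2 ^ (2 ^ j)`, are prime. Here: in every open interval (for instance every neighbourhood
of `1`) the set of the `α` for which they are prime for ALL large `j` has Hausdorff dimension one.

The proof: nested intervals. An interval of parameters on which `⌊(α m) ^ m⌋ = P` is mapped by `α ↦ (α m') ^ m'` onto an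
interval which is longer than the power `1 - θ` of its left end point, if `m' ≥ C m`; it contains many primes by the
theorem on primes in short intervals of the starting files (`Pool.Agent.H295R3.D.hoheisel`).
-/

set_option autoImplicit false

open Filter Set

namespace Pool.Agent.Results.MP_a70bdc_nt.AllLargeTerms

/-- The parameters `α` for which `⌊(α n) ^ n⌋ + k` is prime for all but finitely many terms `n = n j`, `k = k j` of the
two sequences. -/
def Params (n : ℕ → ℕ) (k : ℕ → ℤ) : Set ℝ :=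
  {α : ℝ | ∀ᶠ j in atTop, (⌊(α * n j) ^ n j⌋ + k j).toNat.Prime}

/-- First part: let `n 0 < n 1 < …` be natural numbers with `n (j + 1) / n j → ∞` and `n (j + 1) ≤ L ^ n j` for all large
`j`, and let `k j` be integers with `|k j| ≤ 2 ^ n j` for all large `j`. In every interval `(u, v)`, `0 < u < v`, the set
of the `α` for which `⌊(α n j) ^ n j⌋ + k j` is prime for all large `j` has Hausdorff dimension one.

Second part, a special case: this is so for `n j = 2 ^ (2 ^ j)` and every fixed integer `k`.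

Third part: there is a constant `C` such that the set is uncountable in every such interval as soon as
`n (j + 1) ≥ C n j` for all large `j`. -/
theorem result :
    (∀ n : ℕ → ℕ, StrictMono n → Tendsto (fun j => (n (j + 1) : ℝ) / n j) atTop atTop →
      (∃ L : ℕ, ∀ᶠ j in atTop, n (j + 1) ≤ L ^ n j) →
      ∀ k : ℕ → ℤ, (∀ᶠ j in atTop, |(k j : ℝ)| ≤ 2 ^ n j) →
        ∀ u v : ℝ, 0 < u → u < v → dimH (Ioo u v ∩ Params n k) = 1) ∧
    (∀ k : ℤ, ∀ u v : ℝ, 0 < u → u < v →
      dimH (Ioo u v ∩ Params (fun j => 2 ^ 2 ^ j) fun _ => k) = 1) ∧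
    ∃ C : ℕ, ∀ n : ℕ → ℕ, StrictMono n → (∀ᶠ j in atTop, C * n j ≤ n (j + 1)) →
      ∀ k : ℕ → ℤ, (∀ᶠ j in atTop, |(k j : ℝ)| ≤ 2 ^ n j) →
        ∀ u v : ℝ, 0 < u → u < v → ¬ (Ioo u v ∩ Params n k).Countable := by
  refine ⟨?_, fun k u v hu huv => Pool.Agent.Helper99.ML.dim_eq k hu huv, ?_⟩
  · rintro n hn hrat ⟨L, hL⟩ k hk u v hu huv
    exact Pool.Agent.Helper99.ML.dimG_eq n hn hrat hL k hk hu huv
  obtain ⟨θ, x₁, hθ0, hθ1, hx1, hA⟩ := Pool.Agent.Helper99.ML.three_primes
  obtain ⟨C, hC⟩ := exists_nat_ge (1 / θ)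
  have hC' : 1 ≤ (C : ℝ) * θ := by
    rwa [div_le_iff₀ hθ0] at hC
  have hC1 : 1 ≤ C := by
    by_contra hcon
    have : C = 0 := by omega
    rw [this] at hC'
    norm_num at hC'
  exact ⟨C, fun n hn hlac k hk u v hu huv =>
    Pool.Agent.Helper99.ML.main hθ1 hθ0 hx1 hA hC1 hC' n hn hlac k hk u v hu huv⟩

end Pool.Agent.Results.MP_a70bdc_nt.AllLargeTerms
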