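import Pool.Agent.Helper2.NNQ.Fin

/-!
# Primes near `n^n`: a zero-one law for almost all perturbations of the base or the exponent

For every set `S` of natural numbers and almost every real `θ`, for all integers `k`:
`⌊(n + θ)^n⌋ + k` is prime for infinitely many `n ∈ S` if and only if `∑_{n ∈ S} 1 / (n log n)`
diverges, and the same holds for `⌊n^(n + θ)⌋ + k`; for almost every `α > 0` it also holds for
`⌊(α n)^n⌋ + k`.  With `S` the set of all natural numbers there are infinitely many primes in each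
family.  The numbers `n^n + 1` of the problem are the case `θ = 0`, `α = 1`, `k = 1`.
-/

set_option autoImplicit false

open MeasureTheory

namespace Pool.Agent.Results.MP_a70bdc_nt.AlmostAllBases

theorem result :
    -- all natural numbers `n`: infinitely many primes
    (∀ᵐ θ : ℝ, ∀ k : ℤ,
      {n : ℕ | (⌊(n + θ) ^ n⌋ + k).toNat.Prime}.Infinite ∧
      {n : ℕ | (⌊(n : ℝ) ^ (n + θ)⌋ + k).toNat.Prime}.Infinite) ∧
    -- an arbitrary set of natural numbers, perturbed base or exponent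
    (∀ S : Set ℕ, ∀ᵐ θ : ℝ, ∀ k : ℤ,
      ({n : ℕ | n ∈ S ∧ (⌊(n + θ) ^ n⌋ + k).toNat.Prime}.Infinite ↔
        ¬ Summable (S.indicator fun n : ℕ => 1 / ((n : ℝ) * Real.log n))) ∧
      ({n : ℕ | n ∈ S ∧ (⌊(n : ℝ) ^ (n + θ)⌋ + k).toNat.Prime}.Infinite ↔
        ¬ Summable (S.indicator fun n : ℕ => 1 / ((n : ℝ) * Real.log n)))) ∧
    -- an arbitrary set of natural numbers, dilated base
    ∀ S : Set ℕ, ∀ᵐ α : ℝ, 0 < α → ∀ k : ℤ,
      ({n : ℕ | n ∈ S ∧ (⌊(α * n) ^ n⌋ + k).toNat.Prime}.Infinite ↔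
        ¬ Summable (S.indicator fun n : ℕ => 1 / ((n : ℝ) * Real.log n))) := by
  have law : ∀ S : Set ℕ, ∀ᵐ θ : ℝ, ∀ k : ℤ,
      ({n : ℕ | n ∈ S ∧ (⌊(n + θ) ^ n⌋ + k).toNat.Prime}.Infinite ↔
        ¬ Summable (S.indicator fun n : ℕ => 1 / ((n : ℝ) * Real.log n))) ∧
      ({n : ℕ | n ∈ S ∧ (⌊(n : ℝ) ^ (n + θ)⌋ + k).toNat.Prime}.Infinite ↔
        ¬ Summable (S.indicator fun n : ℕ => 1 / ((n : ℝ) * Real.log n))) := by
    intro S
    obtain ⟨h1, h2⟩ := Pool.Agent.Helper2.NNQ.mainQ S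
    filter_upwards [h1, h2] with θ ha hb k
    exact ⟨ha k, hb k⟩
  refine ⟨?_, law, fun S => (Pool.Agent.Helper2.NNP.main S).1⟩
  filter_upwards [law Set.univ] with θ ha k
  have h := ha k
  simp only [Set.mem_univ, true_and, Set.indicator_univ] at h
  exact ⟨h.1.2 Pool.Agent.H89B.NNP.not_summable_aux, h.2.2 Pool.Agent.H89B.NNP.not_summable_aux⟩

end Pool.Agent.Results.MP_a70bdc_nt.AlmostAllBases
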