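import Pool.Agent.Helper2.NNQ.FarFin

/-!
# Parameters `θ` for which `(n + θ)^n` moves away from the primes

The set of the real `θ` for which the distance of `(n + θ)^n` to the nearest prime tends to infinity with
`n` has Hausdorff dimension one in every interval.
-/

set_option autoImplicit false

open Filter Topology

namespace Pool.Agent.Results.MP_a70bdc_nt.FarFromPrimes

theorem result (a b : ℝ) (hab : a < b) :
    dimH ({θ : ℝ | ∀ K : ℕ, ∀ᶠ n : ℕ in atTop, ∀ p : ℕ, p.Prime → (K : ℝ) < |((n : ℝ) + θ) ^ n - p|} ∩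
      Set.Ioo a b) = 1 :=
  Pool.Agent.Helper2.NNF.farFin a b hab

end Pool.Agent.Results.MP_a70bdc_nt.FarFromPrimes
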