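import Pool.Agent.Helper2.NNQ.FinD

/-!
# Primes near `n^n` along arbitrarily sparse sets of `n`

For every infinite set `S` of natural numbers (for example the numbers `2^(2^j)`, the only `n > 1`
for which `n^n + 1` can be prime) the set of real `θ` such that, for all integers `k`,
`⌊(n + θ)^n⌋ + k` is prime for infinitely many `n ∈ S` is comeagre, and it has Hausdorff dimension
one in every interval.
-/

set_option autoImplicit false

open Filter Topology

namespace Pool.Agent.Results.MP_a70bdc_nt.SparseSetsGeneric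

theorem result (S : Set ℕ) (hS : S.Infinite) :
    (∀ᶠ θ : ℝ in residual ℝ, ∀ k : ℤ,
      {n : ℕ | n ∈ S ∧ (⌊(n + θ) ^ n⌋ + k).toNat.Prime}.Infinite) ∧
    ∀ a b : ℝ, a < b → dimH ({θ : ℝ | ∀ k : ℤ,
      {n : ℕ | n ∈ S ∧ (⌊(n + θ) ^ n⌋ + k).toNat.Prime}.Infinite} ∩ Set.Ioo a b) = 1 :=
  Pool.Agent.Helper2.NNQ.sparse S hS

end Pool.Agent.Results.MP_a70bdc_nt.SparseSetsGeneric
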